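import Pool.Agent.H51.WSC.FullDefs
import Pool.Agent.H51.WSC.Full

/-!
# Full rank with small multilinear weakly skew circuits (MP_f18ce0_lc)
-/

set_option autoImplicit false

namespace Pool.Agent.Results.MP_f18ce0_lc.FullRank

open Pool.Agent.H51.WSC

/-- There is a constant `C` such that over every infinite field and for every `n` some multilinear
polynomial in `2 n` variables is computed by a syntactically multilinear weakly skew circuit with at
most `(n + 2) ^ C` nodes, and its partial derivative matrices for all partitions of the variables
(balanced or not) have the maximal possible rank. -/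
theorem result : ∃ C : ℕ, ∀ (K : Type) [Field K] [Infinite K] (n : ℕ),
    ∃ f : MvPolynomial (Fin (2 * n)) K, Computed SyntacticallyMultilinear f ((n + 2) ^ C) ∧
      (∀ i, f.degreeOf i ≤ 1) ∧
      ∀ Y : Finset (Fin (2 * n)), (pdMatrix f Y).rank = 2 ^ min Y.card (2 * n - Y.card) :=
  full_main

end Pool.Agent.Results.MP_f18ce0_lc.FullRank
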