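import Pool.Agent.H51.NCS.Main

/-!
# Noncommutative circuits and weakly skew noncommutative circuits (MP_f18ce0_lc)

The homogeneous noncommutative version of VP <> VP_ws, with the matching upper bound. The definitions
are in `Pool.Agent.H51.NCS.Defs`.
-/

set_option autoImplicit false

namespace Pool.Agent.Results.MP_f18ce0_lc.NoncommutativeSeparation

open Pool.Agent.H51.NCS

universe u

/-- The cost of making homogeneous noncommutative circuits weakly skew is `s ^ Θ(log s)`.
Lower bound: for some `c > 0`, every field `K` and all large `s` there is a homogeneous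
noncommutative polynomial `f` over `K` of degree `d ≤ s` in `n ≤ s` variables which is computed by
a homogeneous noncommutative circuit with at most `s` nodes, while every homogeneous weakly skew
noncommutative circuit computing `f` has at least `s ^ (c log s)` nodes.
Upper bound: for some `C > 0`, over every field every homogeneous noncommutative polynomial of
degree `d ≤ s` computed by a homogeneous circuit with at most `s ≥ 2` nodes is computed by a
homogeneous weakly skew circuit with at most `s ^ (C log s)` nodes. -/
theorem result :
    (∃ c : ℝ, 0 < c ∧ ∃ s₀ : ℕ, ∀ (K : Type u) [Field K] (s : ℕ), s₀ ≤ s →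
      ∃ (n d : ℕ) (f : MonoidAlgebra K (FreeMonoid (Fin n))), n ≤ s ∧ d ≤ s ∧ Homogeneous f d ∧
        (∃ t ≤ s, HomComputes False f t) ∧
          ∀ t, HomComputes True f t → (s : ℝ) ^ (c * Real.log s) ≤ t) ∧
    (∃ C : ℝ, 0 < C ∧ ∀ (K : Type u) [Field K] (n d s : ℕ)
      (f : MonoidAlgebra K (FreeMonoid (Fin n))), 2 ≤ s → d ≤ s → Homogeneous f d →
        (∃ t ≤ s, HomComputes False f t) →
          ∃ t, HomComputes True f t ∧ (t : ℝ) ≤ (s : ℝ) ^ (C * Real.log s)) :=
  main

end Pool.Agent.Results.MP_f18ce0_lc.NoncommutativeSeparation
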