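import Pool.Agent.H51.SYT.Main

/-!
# The order of a symmetry at which `VP` and `VP_ws` provably separate

The definitions (circuits, `VP`, `VP_ws`, tree polynomials, their symmetries and representations) are
in `Pool.Agent.H51.SYT.Defs`.
-/

set_option autoImplicit false

namespace Pool.Agent.Results.MP_f18ce0_lc.SymmetryThreshold

open MvPolynomial Filter Pool.Agent.H51.SYT

universe u

/-- The symmetries fix the tree polynomial. -/
theorem act_T {K : Type u} [Field K] {ι : Type} [Fintype ι] [DecidableEq ι] (N : ℕ) (r : ι)
    (g : Matrix ι ι K) (hg : IsSymmetry r g) :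
    aeval (move g) (tree X N r : MvPolynomial (ι ⊕ ι × ι × ι) K) = tree X N r :=
  tree_fixed N r g hg

/-- A representation fixed by `g` is a border representation fixed by `g`. -/
theorem border_of_representation {K : Type u} [Field K] {ι : Type} [Fintype ι] [DecidableEq ι]
    (N : ℕ) (r : ι) (m : ℕ) (g : Matrix ι ι K) (hg : IsUnit g.det) (h : HasRep N r m (· = g)) :
    HasBorderRep K N r m (g.map (algebraMap K (RatFunc K))) :=
  border_of_rep N r m g hg h

/-- A threshold for the order of the symmetries of determinantal representations of the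
VP-complete polynomials `T_n = tree X (n + 1) 0` in the variables `x_i` and `x_{i,j,k}`,
`i, j, k ∈ Fin (n + 1)`.

(1) Symmetries of polynomial order are free: for all groups `G n` of symmetries of `T_n` of
polynomially bounded order, invertible in `K`, `VP = VP_ws` over `K` if and only if `T_n` has
determinantal representations of polynomially bounded size fixed by `G n`.

(2) Above polynomial order, even a single symmetry forces superpolynomial size, also for border
representations: for every function `g` tending to infinity and all large `n`, some permutation `π`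
of `{0, ..., n}` with `π 0 = 0` of order at most `n ^ g(n)`, invertible in `K`, is such that all
border representations of `T_n` fixed by `π` have size at least `n ^ (c log (min (g n) n))`.

(3) This is optimal for `g(n) ≥ n ^ ε`, since size `n ^ O(log n)` suffices for all symmetries
together. -/
theorem result :
    (∀ (K : Type u) [Field K] (G : (n : ℕ) → Finset (Matrix (Fin (n + 1)) (Fin (n + 1)) K)),
      (∀ n, IsSymmetryGroup 0 (G n)) → (∃ p : Polynomial ℕ, ∀ n, (G n).card ≤ p.eval n) →
      (VPEqVPws K ↔ ∃ q : Polynomial ℕ, ∀ n, ∃ m ≤ q.eval n, HasRep (n + 1) 0 m (· ∈ G n))) ∧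
    (∃ c : ℝ, 0 < c ∧ ∀ (K : Type u) [Field K] (g : ℕ → ℕ), Tendsto g atTop atTop →
      ∀ᶠ n : ℕ in atTop, ∃ π : Equiv.Perm (Fin (n + 1)), π 0 = 0 ∧ orderOf π ≤ n ^ g n ∧
        (orderOf π : K) ≠ 0 ∧ ∀ m, HasBorderRep K (n + 1) 0 m (π.permMatrix (RatFunc K)) →
          (n : ℝ) ^ (c * Real.log (min (g n) n : ℕ)) ≤ m) ∧
    (∃ c : ℕ, ∀ (K : Type u) [Field K] (n : ℕ), ∃ m ≤ (n + 2) ^ (c * Nat.log 2 (n + 2)),
      HasRep (n + 1) 0 m (IsSymmetry (K := K) (0 : Fin (n + 1)))) :=
  main

end Pool.Agent.Results.MP_f18ce0_lc.SymmetryThreshold
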