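import Pool.Agent.H51.WSC.UnivDefs
import Pool.Agent.H51.WSC.Univ

/-!
# A universal barrier for rank methods (MP_f18ce0_lc)

For every countable family of rank methods there is one polynomial with small weakly skew,
set-multilinear circuits whose rank is, for each of the methods, at least one third of the largest
rank of any polynomial.
-/

set_option autoImplicit false

namespace Pool.Agent.Results.MP_f18ce0_lc.UniversalRank

open Pool.Agent.H51.WSC

theorem result : ∃ C : ℕ, ∀ (n d : ℕ) (Θ : ℕ → RankMethod n d),
    ∃ f : MvPolynomial (Fin d × Fin n) ℂ, Computed SetMultilinearCircuit f ((n + d + 2) ^ C) ∧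
      SetMultilinear f ∧
      ∀ (k : ℕ) (g : MvPolynomial (Fin d × Fin n) ℂ),
        ((Θ k).matrix g).rank ≤ 3 * ((Θ k).matrix f).rank :=
  univ_main

end Pool.Agent.Results.MP_f18ce0_lc.UniversalRank
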